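import Pool.Agent.Q193.LT.Sums
import Pool.Agent.Q193.LT.Crit

/-!
# Rational forms of `ℓ`-adic monodromy groups and the cubic hypersurfaces `T(x, y, z) = 1`

Let `F` be a number field in `ℂ`, and let `M` be the category of motives over `F` in the sense of André, a
semisimple abelian category with Tate twists `N ↦ N(a)`. For a separated scheme `X` of finite type over
`F` let `D.H i X` be the object of `M` given by the graded object of the weight filtration of the
cohomology with compact supports `H^i_c(X)`; for smooth projective `X` it is the motive `h^i(X)`.

For a motive `N` let `Fm N` be the statement that there is a connected reductive subgroup `G` over `ℚ` of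
`GL(H_Betti(N))` such that `G_{ℚ_ℓ}` is the identity component of the Zariski closure of the image of the
Galois group of `F` in `GL(H_ℓ(N))` for all sufficiently large `ℓ`. This is inherited by direct factors
(take the image of `G`; hypothesis `inherit`).

`Ab A` says that `A` is an abelian variety over `F`; question Q1 is the statement that `Fm (h^1(A))` is
true for all abelian varieties `A` over all number fields `F` (this does not depend on the finite extension
`K` of `F` of the question, and for number fields `F` one at a time it is the left hand side below). The
motives `h^i(Y)` of curves `Y` are Artin-Tate motives or `h^1` of Jacobians; for abelian varieties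
`A_1, …, A_r` and integers `a_j`, `b_j`, the identity component of the group for the motive
`⨁ h^1(A_j)(a_j) ⊕ ⨁ ℚ(b_j)` is obtained from that for `h^1(A_1 × ⋯ × A_r × E)`, `E` an elliptic curve, as
the motive is over a finite extension of `F` in the Tannakian category generated by `h^1` of the product;
and every `h^1(A)` is a direct factor of `h^1(Y)` for a curve `Y`. So `Fm` is true for all `h^1(A)` if and
only if it is true for all finite direct sums of Tate twists of motives `h^i(Y)` of curves `Y` (hypothesis
`abelian`).

**Theorem.** `Fm (h^1(A))` is true for all abelian varieties `A` over `F` if and only if `Fm` is true for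
all finite direct sums of Tate motives and of Tate twists of the motives `Gr^W H^i_c(T = 1)` of the smooth
affine cubic hypersurfaces `T(x, y, z) = 1` of the trilinear forms `T` over `F` such that one of the three
blocks of variables has at most three variables (the other two blocks are arbitrary).
-/

set_option autoImplicit false

open CategoryTheory CategoryTheory.Limits AlgebraicGeometry Pool.Agent.Y116.UV Pool.Agent.Z125.UN
  Pool.Agent.Q193.LT

universe v u

namespace Pool.Agent.Results.MP_e965d0_ag.CubicMonodromy

/-- **Rational forms of monodromy groups and cubic hypersurfaces.** See the explanations above. -/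
theorem result {F : Type} [Field F] [NumberField F] {M : Type u} [Category.{v} M] [Abelian M]
    {D : CompactData F M} (h : IsMotives D) {Ab : Sch F → Prop} {Fm : M → Prop}
    (inherit : ∀ {N N' : M} (i : N ⟶ N') (r : N' ⟶ N), i ≫ r = 𝟙 N → Fm N' → Fm N)
    (abelian : (∀ A, Ab A → Fm (D.H 1 A)) ↔ SumsHave D (OfProj D 1) Fm) :
    (∀ A, Ab A → Fm (D.H 1 A)) ↔ SumsHave D (OfForms D 3) Fm :=
  abelian.trans (sums_dim_iff h.compact h.generated h.semisimple inherit 1)

end Pool.Agent.Results.MP_e965d0_ag.CubicMonodromy
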