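import Pool.Agent.Q49.WU.Groups

/-!
# Rational forms of `ℓ`-adic monodromy groups of abelian varieties and hypergraphs

Let `F` be a number field in `ℂ`, and let `M` be the category of motives over `F` in the sense of André, a
semisimple abelian category with Tate twists `N ↦ N(a)`. For a separated scheme `X` of finite type over
`ℚ` let `D.H m n X` be the motive `Gr^W_{1+2m} H^n_c(X_F)`. For smooth projective `Y` the motive
`D.H 0 n Y` is `h^1(Y_F)` if `n = 1`, and zero for all other `n`.

For a motive `N` let `Fm N` be the statement that there is a connected reductive subgroup `G` over `ℚ` of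
`GL(H_Betti(N))` such that `G_{ℚ_ℓ}` is the identity component of the Zariski closure of the image of the
Galois group of `F` in `GL(H_ℓ(N))` for all sufficiently large `ℓ`. This is inherited by direct factors
(take the image of `G`; hypothesis `inherit`).

`Ab A` says that `A` is an abelian variety over `F`, with the motive `h1 A`; question Q1 is the statement
that `Fm (h1 A)` is true for all abelian varieties `A` over all number fields `F` (this does not depend on
the finite extension `K` of `F` of the question, and for number fields `F` one at a time it is the left
hand side below). The motives `h^1(Y_F)` are the motives `h^1` of the Albanese varieties of `Y_F`, and every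
abelian variety over `F` is a union of connected components of `Y_F` for a smooth projective scheme `Y` over
`ℚ`. For abelian varieties `A_1, …, A_r` and integers `a_j` the identity component of the group for the
motive `⨁ h^1(A_j)(a_j)` is an image of that for `h^1(A_1 × ⋯ × A_r × E)`, `E` an elliptic curve, as the
motive is over a finite extension of `F` in the Tannakian category generated by `h^1` of the product. So
`Fm` is true for all `h1 A` if and only if it is true for all finite direct sums of Tate twists of
motives `h^1(Y_F)` (hypothesis `abelian`).

**Theorem.** `Fm (h^1(A))` is true for all abelian varieties `A` over `F` if and only if `Fm` is true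

1. for all finite direct sums of Tate twists of the motives `Gr^W_{2a-1} H^n_c((X_H)_F)` of the smooth
   affine cubic hypersurfaces `X_H : ∑_{(p, q, r) ∈ H} x_p y_q z_r = 1` with coefficients `0` and `1`, for
   all finite sets `H` of triples, where `a` is the number of the variables `x_p`;
2. equivalently, for all finite direct sums of Tate twists of the motives `Gr^W_{2a-1} H^n_c` of the
   hypersurfaces `T(x, y, z) = 1` of all trilinear forms `T` with rational coefficients in `a` variables
   `x_p` and any numbers of variables `y_q`, `z_r`.
-/

set_option autoImplicit false

open CategoryTheory CategoryTheory.Limits AlgebraicGeometry Pool.Agent.Y116.UV Pool.Agent.Z125.UN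
  Pool.Agent.Q193.LT Pool.Agent.Q49.WU

universe v u

namespace Pool.Agent.Results.MP_e965d0_ag.OddWeightsOfHypergraphs

/-- **Rational forms of monodromy groups of abelian varieties and hypergraphs.** See the explanations
above. -/
theorem result {M : Type u} [Category.{v} M] [Abelian M] {D : WeightData ℚ M} (h : IsWMotives D)
    {Var : Type 1} {Ab : Var → Prop} {h1 : Var → M} {Fm : M → Prop}
    (inherit : ∀ {N N' : M} (i : N ⟶ N') (r : N' ⟶ N), i ≫ r = 𝟙 N → Fm N' → Fm N)
    (abelian : (∀ A, Ab A → Fm (h1 A)) ↔ SumsAt D (OfProjAt D) Fm) :
    ((∀ A, Ab A → Fm (h1 A)) ↔ SumsAt D (OfGraphsAt D) Fm) ∧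
    ((∀ A, Ab A → Fm (h1 A)) ↔ SumsAt D (OfFormsAt D) Fm) :=
  ⟨abelian.trans (sumsAt_graph h (P := Fm) inherit frac_rat),
    abelian.trans (sumsAt_iff h (P := Fm) inherit)⟩

end Pool.Agent.Results.MP_e965d0_ag.OddWeightsOfHypergraphs
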