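import Mathlib
import Pool.Agent.Q70.MM.FTMain
import Pool.Agent.Q306.TP.AngleMain

/-!
# Common `ℚ`-form of the `ℓ`-adic monodromy groups of abelian varieties whose reduction at one
place has simple factors of odd prime dimensions

Let `A` be an abelian variety over a number field, of any dimension and with arbitrary endomorphisms,
with good reduction at some place `v`, with a residue field of `q = p ^ a` elements. Suppose that the
characteristic polynomial of the Frobenius element at `v` is the product of the minimal polynomials of
Weil numbers `π i` which generate CM fields `F i` (`HasFrobenius`), such that for each `i`
(`IsSimpleWeil`)

* `π i` is not supersingular (`IsSS`), and the functions `n` on the complex embeddings of `F i` with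
  `n (conj φ) = - n φ` are an irreducible rational representation of the automorphisms of `ℂ`
  (`OddIrreducible`; for instance if `F i` is imaginary quadratic); or
* the degree of `F i` is `2 g` for an **odd prime number** `g`, all powers of `π i` generate `F i`, and
  either there is no Weil relation (`NoWeil`: no positive power of the norm of `π i` to an imaginary
  quadratic subfield of `F i` is a power of `q`; this is true if there is no such subfield), or the slopes
  are `0`, `1 / 2`, `1` and the slope `0` has odd multiplicity (`HasOddRank`). By the second part this
  includes **all ordinary** `π i`; it includes also those of K3 type (slope `0` once).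

In other words: the reduction of `A` at `v` is isogenous to a product of pairwise not isogenous,
geometrically simple abelian varieties `B_i` over the residue field, each of which has odd prime dimension
(for instance ordinary) or a CM field with irreducible odd functions. The number and the dimensions of
the `B_i` are arbitrary and nothing is supposed about the endomorphisms of `A` itself, which may be
simple. Of the fields we suppose only that **no two of the fields `F i` have the same degree and the
same normal closure, and no two of them contain the same imaginary quadratic field** (`IsDifferent`).
The last condition is necessary if the slope functions are not balanced over that field.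

**Theorem. Then for all `ℓ₀`** (such that the Frobenius element has this characteristic polynomial for
the primes `ℓ ≥ ℓ₀`; so `ℓ₀ > p`), **for all prime numbers `ℓ ≥ ℓ₀` and all `m` each `ℓ`-adic Tate class
in `(H^1)^{⊗ 2 m}(m)` is a linear combination, with coefficients in `ℚ_ℓ`, of rational forms on
`W = H_1(A, ℚ)` which are Tate classes for all prime numbers `≥ ℓ₀`** and products of Hodge classes
of degree two (`HasCommonForm`). The identity component of the Zariski closure of the image of the
Galois group is reductive and contains the homotheties; it is the group of the elements of `GSp` which
fix all Tate classes. **So there is an algebraic group over `ℚ`** (the identity component of the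
Lefschetz group, which consists of the similitudes of the polarization form that commute with the
endomorphisms of `A`) **which becomes the connected monodromy group over `ℚ_ℓ` for all `ℓ ≥ ℓ₀`; this
translation is the one of MP_e965d0_ag QuarticForms and it is not formalized.**

For example let `A` be an abelian variety of dimension `g_1 + ... + g_n` for different odd prime numbers
`g_i`, and let the reduction of `A` at `v` be isogenous to the product of ordinary geometrically simple
abelian varieties of dimensions `g_1, ..., g_n`, such that no imaginary quadratic field is contained in
two of their endomorphism algebras. Then there is the common `ℚ`-form, whatever the endomorphism ring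
of `A` is.

The data `GaloisData` are those of the starting files: the Tate modules with the comparison maps, the
theorems of Faltings on endomorphisms and semisimplicity, and the polarization.

Relation to the starting files and to the results of this team. That the absence of relations
between the conjugates of the Weil numbers of one Frobenius element implies the
common `ℚ`-form
was formalized in the starting files (MP_938ce2_ag OneFrobenius, MP_c1bb77_ag
OneFrobeniusTowers, AlmostAllFrobeniusTypes in this folder) and is used in the form of helper70
(`Pool.Agent.Q70.MM.FTMain`). OneFrobeniusTowers contains the case of ordinary `π i` in extensions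
`F i` of prime degree of imaginary quadratic fields, if all pairs of embeddings of different fields `F i`
are flipped by some automorphism (one is fixed and the other one conjugated). The criteria of
AlmostAllFrobeniusTypes and SeveralTypesRelatedFields (helper70) need fields with absolutely
irreducible odd functions and slope types in general position; so they do not apply to fields of
degree greater than two which contain an imaginary quadratic field, and they do not give all ordinary
Weil numbers of given fields. New here is the criterion for families of fields of degrees `2 g`, `g` an
odd prime, with and without imaginary quadratic subfields, in terms of the degrees, the normal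
closures and the imaginary quadratic subfields only, for all ordinary Weil numbers and many others. The
linear algebra of the odd functions for prime `g` (`prime_triC`) is from my theorem `PrimeDimensions`
(MP_ee618e_ag), on the Tate conjecture over finite fields. Published: for **one simple** abelian
variety of odd prime dimension over a finite field the angle rank was determined by Tankeev and
Zarhin, and the conclusion is known for abelian varieties `A` of prime dimension over number fields
(Tankeev, Ribet, Serre, Chi). Here the dimension of `A` is not prime; only its reduction at one place has
factors of prime dimensions, and `A` is not a product.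

The proof. Order the fields by the degree and the degree of the normal closure. The conjugates of the
`π k` of the fields `F k` below `F i` are unrelated to `F i`: the odd functions on the embeddings of
`F i` which are invariant under the automorphisms fixing all conjugates of `F k` form a subrepresentation
of the odd functions, and the only subrepresentations for an odd prime `g` are `0`, everything, and, if
there is an imaginary quadratic subfield, the line of its sign function and the orthogonal complement of
it. So in a relation between the conjugates the part in the highest field that occurs is itself a
relation up to a power, and it is trivial, as the relations form a subrepresentation again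
(`angle_family`). For the odd rank the product of the absolute values of the conjugates over an
imaginary quadratic field shows that there is no Weil relation.
-/

set_option autoImplicit false

namespace Pool.Agent.Results.MP_e965d0_ag.PrimeReduction

open NumberField Module IntermediateField Pool.Agent.H204R3.GP Pool.Agent.TH170
  Pool.Agent.Y137.MV Pool.Agent.Q70.MM Pool.Agent.Q306.TP

/-- The common `ℚ`-form for the abelian varieties with a Frobenius element whose characteristic
polynomial is the product of the minimal polynomials of Weil numbers `π i` for `p ^ a`. -/
def CommonFormHolds (p : ℕ) [Fact p.Prime] (a : ℕ) {I : Type} [Fintype I]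
    (K : I → Type) [∀ i, Field (K i)] [∀ i, NumberField (K i)] [∀ i, IsCMField (K i)]
    (π : ∀ i, K i) : Prop :=
  ∀ (W T Γ : Type) [AddCommGroup W] [Module ℚ W] [FiniteDimensional ℚ W] [AddCommGroup T]
    [Module ℂ T] [Group Γ] (per : W →+ T) (ω₀ : W →ₗ[ℚ] W →ₗ[ℚ] ℚ)
    (D : ∀ (ℓ : ℕ) [Fact ℓ.Prime], FT.GaloisData per ω₀ Γ ℓ) (ℓ₀ : ℕ),
      (∀ (ℓ : ℕ) [Fact ℓ.Prime], ℓ₀ ≤ ℓ → FT.HasFrobenius (D ℓ).ρ (D ℓ).χ p a π) →
        FT.HasCommonForm D ℓ₀

theorem of_angle {p : ℕ} [Fact p.Prime] {a : ℕ} {I : Type} [Fintype I]
    {K : I → Type} [∀ i, Field (K i)] [∀ i, NumberField (K i)] [∀ i, IsCMField (K i)]
    {π : ∀ i, K i} (ha : 0 < a) (hgen : ∀ i, ℚ⟮π i⟯ = ⊤)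
    (hw : ∀ i, π i * IsCMField.complexConj (K i) (π i) = (p : K i) ^ a)
    (hang : MaximalAngleRank (p ^ a) π) : CommonFormHolds p a K π :=
  fun _ _ _ _ _ _ _ _ _ _ _ D ℓ₀ hF => FT.hasCommonForm_of D ℓ₀ fun ℓ _ hℓ =>
    mumfordTate_of_angle ha hgen hw hang (D ℓ).realization (hF ℓ hℓ)

/-- **Common `ℚ`-form of the `ℓ`-adic monodromy groups of the abelian varieties whose reduction at one
place is a product of geometrically simple, not supersingular abelian varieties of odd prime
dimensions, or with irreducible odd functions (first part), for instance of ordinary abelian
varieties of odd prime dimensions (second part), if the CM fields are different and have no common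
imaginary quadratic subfields.** -/
theorem result :
    (∀ (p : ℕ) [Fact p.Prime] (a : ℕ) (I : Type) [Fintype I] (F : I → Type)
      [∀ i, Field (F i)] [∀ i, NumberField (F i)] [∀ i, IsCMField (F i)] (π : ∀ i, F i), 0 < a →
      (∀ i, ℚ⟮π i⟯ = ⊤) → (∀ i, π i * IsCMField.complexConj (F i) (π i) = (p : F i) ^ a) →
      (∀ i, IsSimpleWeil p a (π i)) → (∀ i k, i ≠ k → IsDifferent (F i) (F k)) →
      CommonFormHolds p a F π) ∧
    (∀ (p : ℕ) [Fact p.Prime] (a : ℕ) (K : Type) [Field K] [NumberField K] [IsCMField K] (π : K),
      0 < a → π * IsCMField.complexConj K π = (p : K) ^ a →
      (∃ g : ℕ, g.Prime ∧ g ≠ 2 ∧ finrank ℚ K = 2 * g) → (∀ s : ℕ, 0 < s → ℚ⟮π ^ s⟯ = ⊤) →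
      (∀ τ : K →+* PadicAlgCl p, ‖τ π‖ = 1 ∨ ‖τ π‖ = ‖(p : PadicAlgCl p) ^ a‖) →
      IsSimpleWeil p a π) := by
  refine ⟨?_, ?_⟩
  · intro p _ a I _ F _ _ _ π ha hg hw hs hd
    exact of_angle ha hg hw (angle_family' ha hw hs hd)
  · intro p _ a K _ _ _ π ha hw hK hgen hord
    exact simpleWeil_of_ordinary ha hw hK hgen hord

end Pool.Agent.Results.MP_e965d0_ag.PrimeReduction
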