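import Mathlib
import Pool.Agent.Q70.MM.CluTwo
import Pool.Agent.Q70.MM.FTMain

/-!
# Common `ℚ`-form of the `ℓ`-adic monodromy groups of abelian varieties with a Frobenius element
with several Weil numbers in the same field or in related fields

Let `A` be an abelian variety over a number field, of any dimension and with arbitrary
endomorphisms, with good reduction at some place `v`, with a residue field of `q = p ^ a` elements.
Suppose that the characteristic polynomial of the Frobenius element at `v` is the product of the
minimal polynomials of Weil numbers `π c l` which generate CM fields `K c` (`HasFrobenius`). Here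
`c` is in a finite set `C` and `l` in a finite set `J c`, so that there may be **several Weil
numbers in the same field**. Always suppose that the functions `n` on the complex embeddings of `K
c` with `n (conj φ) = - n φ` are an absolutely irreducible representation of the automorphisms of
`ℂ` (`OddAbsolutelyIrreducible`). This is the generic case; it is true for example if some
automorphism of `ℂ` exchanges one embedding of `K c` with its complex conjugate and fixes all the
others.

The theorems of the starting files suppose that the fields of the Weil numbers of `A` are pairwise
independent or unrelated (there are no equivariant maps between the odd functions for `K c` and `K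
c'`). Here the indices `c` may form pairs `c`, `β c` such that **the fields `K c` and `K (β c)` are
related in any way** (isomorphic fields, or different fields with isomorphic representations). Only
the slopes have to be in general position, in the following sense. The slope function of `π c l` is
`τ ↦ log |τ (π c l)| + (log q) / 2` on the embeddings `τ` of `K c` in the algebraic closure of `ℚ_p`
(that is, the slope minus `1 / 2`, times `- log q`). Let `D c` be the quadratic form `m ↦ ∑ τ, (∑ l,
m l * slope (π c l) τ) ^ 2` in the rational variables `m l`, `l` in `J c` (`slopeForm`). We suppose

* `IndependentSlopes`: for each `c` the slope functions of the `π c l` are linearly independent over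
  `ℚ` (`D c` is anisotropic);
* `SeparatedPairs`: if `β c ≠ c` then `[K c : ℚ] ≠ [K (β c) : ℚ]`, or `[K c : ℚ] = 2 g` with odd `g`
  and the forms `D c` and `D (β c)` have **no common values** at nonzero rational vectors, or `g` is
  twice an odd number and no value of `D c` is a value of `D (β c)` times a **sum of two squares**
  (at nonzero vectors). For odd `g` this says that `D c ⊥ - D (β c)` is anisotropic over `ℚ`.

**First part. Then for all `ℓ₀`** (such that the Frobenius element has this characteristic
polynomial for the primes `ℓ ≥ ℓ₀`; so `ℓ₀ > p`), **for all prime numbers `ℓ ≥ ℓ₀` and all `m` each
`ℓ`-adic Tate class in `(H^1)^{⊗ 2 m}(m)` is a linear combination, with coefficients in `ℚ_ℓ`, of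
rational forms on `W = H_1(A, ℚ)` which are Tate classes for all prime numbers `≥ ℓ₀`** and products
of Hodge classes of degree two (`HasCommonForm`). The identity component of the Zariski closure of
the image of the Galois group is reductive and contains the homotheties; it is the group of the
elements of `GSp` which fix all Tate classes. **So there is an algebraic group over `ℚ`** (the
identity component of the Lefschetz group, which consists of the similitudes of the polarization
form that commute with the endomorphisms of `A`) **which becomes the connected monodromy group over
`ℚ_ℓ` for all `ℓ ≥ ℓ₀`; this translation is the one of MP_e965d0_ag QuarticForms and it is not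
formalized.**

**Second part: two fields, no condition on the fields.** There are only two fields, `F false` and
`F true`, with arbitrary relation, and any number of Weil numbers in each of them.

**Third part: three Weil numbers.** Let `x`, `y` be Weil numbers in `F false` and `z` a Weil number
in `F true` with only the slopes `0`, `1 / 2`, `1` and with `p`-ranks `f₁`, `f₂`, `f > 0`
(`HasRank`), and let `2 k` be the number of embeddings at which `x` and `y` have the same slope
(different from `1 / 2`) minus the number of those at which they have opposite slopes (`agreement`).
*Nothing is assumed about the relation of `F false` and `F true`*, `[F false : ℚ] = 2 g` with odd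
`g`. If the equation `f₁ X ^ 2 + 2 k X Y + f₂ Y ^ 2 = f Z ^ 2` has no integral solution with `(X, Y)
≠ (0, 0)`, then the conclusion holds. For example let `x`, `y` be ordinary, `g = 5`, let the slopes
of `x` and `y` be equal at four or six of the ten embeddings and let `z` have `p`-rank one; then the
equation is `U ^ 2 + 24 Y ^ 2 = 5 Z ^ 2` with `U = 5 X + k Y`, `k = 1` or `-1`, and has no solutions
modulo powers of `3`. So this applies to abelian varieties of dimension `15` with such a Frobenius
element, `F true` being any CM field of degree `10` with absolutely irreducible odd functions.

In the formal statement `per` is the inclusion of `W` in the tangent space, `ω₀` the form given by a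
polarization, and `D ℓ` (`GaloisData`) consists of the action of the Galois group on the rational
Tate module `ℚ_ℓ ⊗ W`, the cyclotomic character, the Weil pairing, the theorems of Faltings on
endomorphisms and on semisimplicity (`IsRealization`) and the theorem of Deligne that Hodge classes
are Tate classes.

Relation to the starting files and to the results of this team. That the absence of relations
between the conjugates of the Weil numbers of one Frobenius element implies the Mumford-Tate
conjecture was formalized in the starting files (MP_c1bb77_ag OneFrobeniusTowers,
AlmostAllFrobeniusTypes in this folder). `ThreeTypesPerField` (MP_950c68_ag) and `TwoRelatedFields`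
(MP_2a05c8_ag), both by helper70, on the Tate conjecture over finite fields and over finitely
generated fields, treat the extreme cases: several Weil numbers in the same field, the fields being
unrelated, and one Weil number for each of two related fields. The criterion here, by the quadratic
forms of the slopes, contains both of them, and the cases of several numbers in related fields are
new; it is applied here to the common `ℚ`-form of the monodromy groups.

The proof. A relation between the conjugates gives rational odd functions `n c l` on the embeddings
of `K c` with `∑ c, ∑ l, ∑ x, n c l x * u c l (σ x) = 0` for all `σ` in the Galois group, `u c l`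
being the slope functions. The second moments over the Galois group and Schur's lemma separate the
pairs (`orth`). If the representations `V`, `V'` of the odd functions for `K c` and `K (β c)` are
not isomorphic then they also separate these two. If there is an isomorphism, it is given by an
invariant rational kernel `b`, and `b` carries the relation for `K (β c)` to one for `K c`, with the
functions `∑ y, b x y * u' l y`. Second moments again show that for each embedding `x` of `K c`
there is a linear relation between the functions `u l` and `∑ y, b x y * u' l y`, with rational
coefficients (`same_core`). By Schur's lemma `b` is a similitude, so that the values of the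
quadratic forms at the coefficients are equal up to the multiplier of `b`. This multiplier is a
square for odd `g` (by the determinant) and a sum of two squares if `g` is twice an odd number (by
Witt's cancellation).
-/

set_option autoImplicit false

namespace Pool.Agent.Results.MP_e965d0_ag.SeveralTypesRelatedFields

open NumberField Module IntermediateField Pool.Agent.H204R3.GP Pool.Agent.TH170
  Pool.Agent.Y137.MV Pool.Agent.Y137.SL Pool.Agent.Y1.CT Pool.Agent.Q70.SQ Pool.Agent.Q70.MM

/-- The common `ℚ`-form for the abelian varieties with a Frobenius element whose characteristic
polynomial is the product of the minimal polynomials of Weil numbers `π i` for `p ^ a`. -/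
def CommonFormHolds (p : ℕ) [Fact p.Prime] (a : ℕ) {I : Type} [Fintype I]
    (K : I → Type) [∀ i, Field (K i)] [∀ i, NumberField (K i)] [∀ i, IsCMField (K i)]
    (π : ∀ i, K i) : Prop :=
  ∀ (W T Γ : Type) [AddCommGroup W] [Module ℚ W] [FiniteDimensional ℚ W] [AddCommGroup T]
    [Module ℂ T] [Group Γ] (per : W →+ T) (ω₀ : W →ₗ[ℚ] W →ₗ[ℚ] ℚ)
    (D : ∀ (ℓ : ℕ) [Fact ℓ.Prime], FT.GaloisData per ω₀ Γ ℓ) (ℓ₀ : ℕ),
      (∀ (ℓ : ℕ) [Fact ℓ.Prime], ℓ₀ ≤ ℓ → FT.HasFrobenius (D ℓ).ρ (D ℓ).χ p a π) →
        FT.HasCommonForm D ℓ₀

theorem of_angle {p : ℕ} [Fact p.Prime] {a : ℕ} {I : Type} [Fintype I]
    {K : I → Type} [∀ i, Field (K i)] [∀ i, NumberField (K i)] [∀ i, IsCMField (K i)]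
    {π : ∀ i, K i} (ha : 0 < a) (hgen : ∀ i, ℚ⟮π i⟯ = ⊤)
    (hw : ∀ i, π i * IsCMField.complexConj (K i) (π i) = (p : K i) ^ a)
    (hang : MaximalAngleRank (p ^ a) π) : CommonFormHolds p a K π :=
  fun _ _ _ _ _ _ _ _ _ _ _ D ℓ₀ hF => FT.hasCommonForm_of D ℓ₀ fun ℓ _ hℓ =>
    mumfordTate_of_angle ha hgen hw hang (D ℓ).realization (hF ℓ hℓ)

/-- **Common `ℚ`-form of the `ℓ`-adic monodromy groups of the abelian varieties with a Frobenius
element with several Weil numbers in the same CM field or in related CM fields, with absolutely
irreducible odd functions, if the quadratic forms of the slopes are separated (first part; second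
part: two fields without any condition on their relation; third part: three Weil numbers with slopes
`0`, `1 / 2`, `1` and a ternary equation).** -/
theorem result :
    (∀ (p : ℕ) [Fact p.Prime] (a : ℕ) (C : Type) [Fintype C] (K : C → Type)
      [∀ c, Field (K c)] [∀ c, NumberField (K c)] [∀ c, IsCMField (K c)]
      (J : C → Type) [∀ c, Fintype (J c)] (π : ∀ c, J c → K c), 0 < a →
      IsSystem p a π → SeparatedPairs p a π →
      CommonFormHolds p a (fun i : Σ c, J c => K i.1) (fun i => π i.1 i.2)) ∧
    (∀ (p : ℕ) [Fact p.Prime] (a : ℕ) (F : Bool → Type)
      [∀ b, Field (F b)] [∀ b, NumberField (F b)] [∀ b, IsCMField (F b)]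
      (J : Bool → Type) [∀ b, Fintype (J b)] (π : ∀ b, J b → F b), 0 < a →
      IsSystem p a π → Separated p a (π false) (π true) → Separated p a (π true) (π false) →
      CommonFormHolds p a (fun i : Σ b, J b => F i.1) (fun i => π i.1 i.2)) ∧
    (∀ (p : ℕ) [Fact p.Prime] (a : ℕ) (F : Bool → Type)
      [∀ b, Field (F b)] [∀ b, NumberField (F b)] [∀ b, IsCMField (F b)]
      (x y : F false) (z : F true) (f₁ f₂ f : ℕ) (k : ℤ), 0 < a →
      IsTriple p a x y z f₁ f₂ f k →
      CommonFormHolds p a (fun i : Σ b : Bool, Fin (cond b 1 2) => F i.1)
        (fun i => twoOne x y z i.1 i.2)) := by
  refine ⟨?_, ?_, ?_⟩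
  · intro p _ a C _ K _ _ _ J _ π ha hS hsep
    exact of_angle ha (fun i => hS.gen i.1 i.2) (fun i => hS.weil i.1 i.2)
      (angle_of_forms π ha hS.weil hS.abs hS.slopes hsep)
  · intro p _ a F _ _ _ J _ π ha hS h1 h2
    exact of_angle ha (fun i => hS.gen i.1 i.2) (fun i => hS.weil i.1 i.2)
      (angle_of_two π ha hS.weil hS.abs hS.slopes h1 h2)
  · intro p _ a F _ _ _ x y z f₁ f₂ f k ha hT
    exact of_angle ha (triple_gen hT) (triple_weil hT) (angle_triple ha hT)

end Pool.Agent.Results.MP_e965d0_ag.SeveralTypesRelatedFields
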